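import Pool.Agent.Helper81.AT.Defs
import Pool.Agent.Helper27.TF.Frame

/-!
Project AT (MP_b8862a_ag), block AT-E2: types `B`, `C`, `D` of large rank, weights which are not symmetric.
-/

set_option linter.unusedSectionVars false

open Module PF TF PW PX

namespace AT

variable {E : Type*} [NormedAddCommGroup E] [InnerProductSpace ℝ E] {Φ X : Finset E}

/-- reflections preserve the weights -/
theorem Sat'.refl90 (hX : Sat' Φ X) {a x : E} (ha : a ∈ Φ) (hna : -a ∈ Φ) (hx : x ∈ X) : x - co a x • a ∈ X := by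
  obtain ⟨k, hk⟩ := hX.int a ha x hx
  rcases le_or_gt 0 k with h0 | h0
  · have h2 : ((k.toNat : ℕ) : ℝ) = k := by
      have : ((k.toNat : ℤ) : ℝ) = k := by rw [Int.toNat_of_nonneg h0]
      rw [Int.cast_natCast] at this
      exact this
    have h1 := hX.str a ha x hx k.toNat (by rw [hk, h2])
    rw [h2] at h1
    rw [hk]; exact h1
  · have h3 : ((-k).toNat : ℤ) = -k := Int.toNat_of_nonneg (by omega)
    have h2 : (((-k).toNat : ℕ) : ℝ) = -k := by
      have : (((-k).toNat : ℤ) : ℝ) = ((-k : ℤ) : ℝ) := by rw [h3]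
      rw [Int.cast_natCast] at this
      rw [this]; push_cast; rfl
    have h1 := hX.str (-a) hna x hx (-k).toNat (by rw [co_neg_left, hk, h2])
    rw [h2, smul_neg, neg_smul, neg_neg] at h1
    rw [hk]; exact h1

variable {m : ℕ} {e : Fin m → E} {c : ℝ} {d : ℕ}

/-- sign changes of two coordinates -/
theorem flip90 (F : Fr Φ m e c d) (hX : Sat' Φ X) {x : E} (hx : x ∈ X) {i j : Fin m} (hij : i ≠ j) :
    ∃ y ∈ X, ∀ k, cx e c y k = if k = i ∨ k = j then -cx e c x k else cx e c x k := by
  have h1 := Sat'.refl90 hX (F.rt_mem hij (Or.inl rfl) (Or.inl rfl))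
    (by
      have := F.rt_mem hij (s := -1) (t := -1) (Or.inr rfl) (Or.inr rfl)
      have h2 : -rt e c 1 1 i j = rt e c (-1) (-1) i j := by
        simp only [rt, Int.cast_neg, Int.cast_one, neg_smul, one_smul]
        rw [← smul_neg, neg_add]
      rw [h2]; exact this) hx
  rw [F.co_rt hij (Or.inl rfl) (Or.inl rfl)] at h1
  set x1 := x - (((1 : ℤ) : ℝ) * cx e c x i + ((1 : ℤ) : ℝ) * cx e c x j) • rt e c 1 1 i j with hx1
  have hc1 : ∀ k, cx e c x1 k = cx e c x k - (cx e c x i + cx e c x j) *
      ((if i = k then 1 else 0) + (if j = k then 1 else 0)) := by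
    intro k
    rw [hx1, F.cx_sub_smul]
    push_cast
    ring
  have h3 := Sat'.refl90 hX (F.rt_mem hij (s := 1) (t := -1) (Or.inl rfl) (Or.inr rfl))
    (by
      have := F.rt_mem hij (s := -1) (t := 1) (Or.inr rfl) (Or.inl rfl)
      have h2 : -rt e c 1 (-1) i j = rt e c (-1) 1 i j := by
        simp only [rt, Int.cast_neg, Int.cast_one, neg_smul, one_smul]
        rw [← smul_neg, neg_add, neg_neg]
      rw [h2]; exact this) h1
  rw [F.co_rt hij (Or.inl rfl) (Or.inr rfl)] at h3
  refine ⟨_, h3, fun k => ?_⟩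
  rw [F.cx_sub_smul, hc1 k, hc1 i, hc1 j, if_pos rfl, if_neg hij.symm, if_neg hij, if_pos rfl]
  push_cast
  by_cases hki : k = i
  · subst hki
    rw [if_pos rfl, if_neg hij.symm, if_pos (Or.inl rfl)]
    ring
  · by_cases hkj : k = j
    · subst hkj
      rw [if_neg (Ne.symm hki), if_pos rfl, if_pos (Or.inr rfl)]
      ring
    · rw [if_neg (Ne.symm hki), if_neg (Ne.symm hkj), if_neg (by tauto)]
      ring

/-- sign change of one coordinate, types `B` and `C` -/
theorem flip1_90 (F : Fr Φ m e c d) (hd : d ≠ 0) (hX : Sat' Φ X) {x : E} (hx : x ∈ X) (i : Fin m) :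
    ∃ y ∈ X, ∀ k, cx e c y k = if k = i then -cx e c x k else cx e c x k := by
  have hc := F.pos
  have hd0 : (0 : ℝ) < d := by exact_mod_cast Nat.pos_of_ne_zero hd
  have h1 := Sat'.refl90 hX (a := (d * c : ℝ) • e i) ((F.mem _).2 (Or.inr ⟨hd, i, Or.inl rfl⟩))
    ((F.mem _).2 (Or.inr ⟨hd, i, Or.inr rfl⟩)) hx
  refine ⟨_, h1, fun k => ?_⟩
  unfold cx co
  rw [inner_sub_left, inner_smul_left, inner_smul_left, inner_smul_right, inner_smul_left, inner_smul_right, F.inner_e,
    F.inner_e, if_pos rfl]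
  simp only [conj_trivial]
  by_cases hki : k = i
  · subst hki
    rw [if_pos rfl, if_pos rfl]
    field_simp
    ring
  · rw [if_neg hki, if_neg (Ne.symm hki)]
    ring

/-- the weights are determined by their coordinates -/
theorem eq_of_cx90 (F : Fr Φ m e c d) (hX : Sat' Φ X) {x y : E} (hx : x ∈ X) (hy : y ∈ X)
    (h : ∀ k, cx e c y k = -cx e c x k) : y = -x := by
  have hspan : Submodule.span ℝ (Φ : Set E) ≤ Submodule.span ℝ (Set.range e) := by
    rw [Submodule.span_le]
    intro a ha
    have he : ∀ i, e i ∈ Submodule.span ℝ (Set.range e) := fun i => Submodule.subset_span ⟨i, rfl⟩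
    rcases (F.mem a).1 ha with ⟨i, j, -, h1 | h1 | h1⟩ | ⟨-, i, h1 | h1⟩
    · rw [h1]; exact Submodule.smul_mem _ _ (Submodule.add_mem _ (he i) (he j))
    · rw [h1]; exact Submodule.smul_mem _ _ (Submodule.sub_mem _ (he i) (he j))
    · rw [h1]; exact Submodule.neg_mem _ (Submodule.smul_mem _ _ (Submodule.add_mem _ (he i) (he j)))
    · rw [h1]; exact Submodule.smul_mem _ _ (he i)
    · rw [h1]; exact Submodule.neg_mem _ (Submodule.smul_mem _ _ (he i))
  have hz : y + x ∈ Submodule.span ℝ (Set.range e) :=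
    Submodule.add_mem _ (hspan (hX.span y hy)) (hspan (hX.span x hx))
  have h0 : ∀ k, (inner ℝ (y + x) (e k) : ℝ) = 0 := by
    intro k
    have h1 := h k
    unfold cx at h1
    have hc := F.pos.ne'
    rw [inner_add_left]
    field_simp at h1
    linarith
  have h2 : ∀ w ∈ Submodule.span ℝ (Set.range e), (inner ℝ (y + x) w : ℝ) = 0 := by
    intro w hw
    induction hw using Submodule.span_induction with
    | mem w hw => obtain ⟨k, rfl⟩ := hw; exact h0 k
    | zero => exact inner_zero_right _
    | add u w _ _ hu hw => rw [inner_add_right, hu, hw, add_zero]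
    | smul r w _ hw => rw [inner_smul_right, hw, mul_zero]
  have h3 : y + x = 0 := inner_self_eq_zero.1 (h2 _ hz)
  exact eq_neg_of_add_eq_zero_left h3

/-- all sign changes away from one coordinate -/
theorem flips90 (F : Fr Φ m e c d) (hX : Sat' Φ X) {x : E} (hx : x ∈ X) (i0 : Fin m) (S : Finset (Fin m)) (hS : i0 ∉ S) :
    ∃ y ∈ X, (∀ k, k ≠ i0 → cx e c y k = if k ∈ S then -cx e c x k else cx e c x k) ∧
      (cx e c y i0 = cx e c x i0 ∨ cx e c y i0 = -cx e c x i0) := by
  classical
  induction S using Finset.induction_on with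
  | empty => exact ⟨x, hx, fun k _ => by simp, Or.inl rfl⟩
  | insert i S hi ih =>
    rw [Finset.mem_insert, not_or] at hS
    obtain ⟨y, hy, h1, h2⟩ := ih hS.2
    obtain ⟨z, hz, h3⟩ := flip90 F hX hy (i := i) (j := i0) (Ne.symm hS.1)
    refine ⟨z, hz, fun k hk => ?_, ?_⟩
    · rw [h3 k, h1 k hk]
      by_cases hki : k = i
      · subst hki
        rw [if_pos (Or.inl rfl), if_neg hi, if_pos (Finset.mem_insert_self _ _)]
      · rw [if_neg (by tauto)]
        have : k ∈ insert i S ↔ k ∈ S := by simp [hki]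
        simp only [this]
    · rw [h3 i0, if_pos (Or.inr rfl)]
      rcases h2 with h | h
      · right; rw [h]
      · left; rw [h, neg_neg]

/-- a set of weights which is not symmetric is large -/
theorem big90 (F : Fr Φ m e c d) (hm : 1 ≤ m) (hX : Sat' Φ X) (hns : ∃ x ∈ X, -x ∉ X) : 2 ^ (m - 1) ≤ X.card := by
  classical
  obtain ⟨x, hx, hnx⟩ := hns
  -- types B and C are impossible
  have hd : d = 0 := by
    by_contra hd
    apply hnx
    have key : ∀ S : Finset (Fin m), ∃ y ∈ X, ∀ k, cx e c y k = if k ∈ S then -cx e c x k else cx e c x k := by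
      intro S
      induction S using Finset.induction_on with
      | empty => exact ⟨x, hx, fun k => by simp⟩
      | insert i S hi ih =>
        obtain ⟨y, hy, h1⟩ := ih
        obtain ⟨z, hz, h3⟩ := flip1_90 F hd hX hy i
        refine ⟨z, hz, fun k => ?_⟩
        rw [h3 k, h1 k]
        by_cases hki : k = i
        · subst hki
          rw [if_pos rfl, if_neg hi, if_pos (Finset.mem_insert_self _ _)]
        · rw [if_neg hki]
          have : k ∈ insert i S ↔ k ∈ S := by simp [hki]
          simp only [this]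
    obtain ⟨y, hy, h1⟩ := key Finset.univ
    have h2 := eq_of_cx90 F hX hx hy (fun k => by rw [h1 k, if_pos (Finset.mem_univ _)])
    rw [← h2]
    exact hy
  -- no coordinate of x vanishes
  have h0 : ∀ i, cx e c x i ≠ 0 := by
    intro i h
    apply hnx
    obtain ⟨y, hy, h1, h2⟩ := flips90 F hX hx i (Finset.univ.erase i) (by simp)
    have h3 := eq_of_cx90 F hX hx hy (fun k => by
      by_cases hk : k = i
      · subst hk
        rcases h2 with h2 | h2
        · rw [h2, h, neg_zero]
        · rw [h2]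
      · rw [h1 k hk, if_pos (by simp [hk])])
    rw [← h3]
    exact hy
  let i0 : Fin m := ⟨0, by omega⟩
  have hex : ∀ S : Finset (Fin m), S ∈ (Finset.univ.erase i0).powerset → ∃ y ∈ X,
      ∀ k, k ≠ i0 → cx e c y k = if k ∈ S then -cx e c x k else cx e c x k := by
    intro S hS
    have hS' : i0 ∉ S := by
      intro h
      have := Finset.mem_powerset.1 hS h
      simp at this
    obtain ⟨y, hy, h1, -⟩ := flips90 F hX hx i0 S hS'
    exact ⟨y, hy, h1⟩
  choose f hf1 hf2 using hex
  have hcard : ((Finset.univ.erase i0).powerset).card = 2 ^ (m - 1) := by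
    rw [Finset.card_powerset, Finset.card_erase_of_mem (Finset.mem_univ _), Finset.card_univ, Fintype.card_fin]
  rw [← hcard]
  refine Finset.card_le_card_of_injOn (fun S => if h : S ∈ (Finset.univ.erase i0).powerset then f S h else 0) ?_ ?_
  · intro S hS
    have hS' : S ∈ (Finset.univ.erase i0).powerset := Finset.mem_coe.1 hS
    simp only [hS', dif_pos]
    exact hf1 S hS'
  · intro S hS T hT hST
    have hS' : S ∈ (Finset.univ.erase i0).powerset := Finset.mem_coe.1 hS
    have hT' : T ∈ (Finset.univ.erase i0).powerset := Finset.mem_coe.1 hT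
    simp only [hS', hT', dif_pos] at hST
    ext k
    by_cases hk : k = i0
    · subst hk
      have h1 := Finset.mem_powerset.1 hS'
      have h2 := Finset.mem_powerset.1 hT'
      constructor
      · intro h; have := h1 h; simp at this
      · intro h; have := h2 h; simp at this
    · have h1 := hf2 S hS' k hk
      have h2 := hf2 T hT' k hk
      rw [hST] at h1
      rw [h1] at h2
      have h3 := h0 k
      by_cases hkS : k ∈ S <;> by_cases hkT : k ∈ T <;> simp only [hkS, hkT, if_true, if_false] at h2 ⊢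
      · exact absurd (by linarith) h3
      · exact absurd (by linarith) h3

/-- AT-E2: types `B`, `C`, `D` of large rank -/
theorem dich_fr' (K : ℕ) : ∃ R : ℕ, ∀ {E : Type*} [NormedAddCommGroup E] [InnerProductSpace ℝ E]
    {Φ X : Finset E} {m n : ℕ} {l v : E} {e : Fin m → E} {c : ℝ} {d : ℕ}, Wd' Φ X n l v → Fr Φ m e c d → R ≤ m →
    (∃ x ∈ X, -x ∉ X) → m ^ K ≤ n := by
  obtain ⟨R, hR⟩ : ∃ R : ℕ, ∀ m : ℕ, R ≤ m → m ^ K ≤ 2 ^ (m - 1) := by
    have h1 : Filter.Tendsto (fun m : ℕ => (m : ℝ) ^ K / (2 : ℝ) ^ m) Filter.atTop (nhds 0) :=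
      tendsto_pow_const_div_const_pow_of_one_lt K (by norm_num)
    have h2 := h1.eventually (gt_mem_nhds (show (0 : ℝ) < 1 / 2 by norm_num))
    obtain ⟨R, hR⟩ := Filter.eventually_atTop.1 h2
    refine ⟨max R 1, fun m hm => ?_⟩
    have h3 := hR m (le_trans (le_max_left _ _) hm)
    have hm1 : 1 ≤ m := le_trans (le_max_right _ _) hm
    rw [div_lt_iff₀ (by positivity)] at h3
    have h4 : (2 : ℝ) ^ m = 2 * 2 ^ (m - 1) := by
      rw [← pow_succ', Nat.sub_add_cancel hm1]
    rw [h4] at h3
    have h5 : (m : ℝ) ^ K ≤ (2 : ℝ) ^ (m - 1) := by linarith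
    exact_mod_cast h5
  refine ⟨max R 1, ?_⟩
  intro E _ _ Φ X m n l v e c d h F hm hns
  have h1 := big90 F (le_trans (le_max_right _ _) hm) h.sat hns
  exact (hR m (le_trans (le_max_left _ _) hm)).trans (h1.trans h.card_le)

end AT
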